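import Pool.Agent.W209.KT.Stm

set_option autoImplicit false

open Filter

namespace Pool.Agent.W11.KT

open Pool.Agent.W209.KT

theorem D_succ (k : ℕ) : (D (k + 1) : ℝ) = (D k : ℝ) ^ 36 := by
  unfold D
  push_cast
  rw [← pow_mul]
  congr 1
  ring

theorem D_big (k : ℕ) : (1000000 : ℝ) ≤ D k := by
  have h1 : 2 ^ 20 ≤ D k := by
    unfold D
    apply Nat.pow_le_pow_right (by norm_num)
    have : 1 ≤ 36 ^ k := Nat.one_le_pow _ _ (by norm_num)
    omega
  have h2 : 1000000 ≤ D k := le_trans (by norm_num) h1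
  exact_mod_cast h2

theorem D_lev (k : ℕ) : (2 : ℝ) ^ 23 * 2 ^ (12 * lev k) ≤ D k := by
  have h1 : 2 ^ (23 + 12 * lev k) ≤ D k := by
    unfold D
    apply Nat.pow_le_pow_right (by norm_num)
    have h2 : lev k < k + 1 := Nat.log_lt_self _ (by omega)
    have h3 : k < 36 ^ k := Nat.lt_pow_self (by norm_num)
    omega
  have h2 : ((2 ^ (23 + 12 * lev k) : ℕ) : ℝ) ≤ D k := by exact_mod_cast h1
  push_cast at h2
  rw [pow_add] at h2
  exact h2

theorem D_id (k : ℕ) : (k : ℝ) + 1 ≤ D k := by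
  have h1 : k + 1 ≤ D k := by
    unfold D
    have h3 : k < 36 ^ k := Nat.lt_pow_self (by norm_num)
    have h4 : 1000 * 36 ^ k < 2 ^ (1000 * 36 ^ k) := Nat.lt_two_pow_self
    omega
  exact_mod_cast h1

theorem p_low (k : ℕ) (j : Fin 2) : (D k : ℝ) ≤ 3 * p k j := by
  unfold p
  split_ifs
  · have := D_big k
    linarith
  · have h : D k < 3 ^ (Nat.log 3 (D k) + 1) := Nat.lt_pow_succ_log_self (by norm_num) _
    have h2 : D k ≤ 3 * E k := by
      unfold E
      rw [pow_succ] at h
      omega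
    exact_mod_cast h2

theorem rd (k : ℕ) (j : Fin 2) (X : ℝ) :
    ∃ s : ℤ, |(s : ℝ) - X| ≤ 3 / 2 ∧ IsCoprime s (p k j : ℤ) := by
  have hr : |X - round X| ≤ 1 / 2 := abs_sub_round X
  rw [abs_le] at hr
  have hcase : IsCoprime (round X) (p k j : ℤ) ∨ IsCoprime (round X + 1) (p k j : ℤ) := by
    unfold p
    split_ifs
    · unfold D
      push_cast
      rcases Int.emod_two_eq_zero_or_one (round X) with h | h
      · right
        apply IsCoprime.pow_right
        exact ⟨1, -(round X / 2), by omega⟩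
      · left
        apply IsCoprime.pow_right
        exact ⟨1, -(round X / 2), by omega⟩
    · unfold E
      push_cast
      have h3 : round X % 3 = 0 ∨ round X % 3 = 1 ∨ round X % 3 = 2 := by omega
      rcases h3 with h | h | h
      · right
        apply IsCoprime.pow_right
        exact ⟨1, -(round X / 3), by omega⟩
      · left
        apply IsCoprime.pow_right
        exact ⟨1, -(round X / 3), by omega⟩
      · left
        apply IsCoprime.pow_right
        exact ⟨-1, round X / 3 + 1, by omega⟩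
  rcases hcase with h | h
  · refine ⟨round X, ?_, h⟩
    rw [abs_le]
    constructor <;> linarith [hr.1, hr.2]
  · refine ⟨round X + 1, ?_, h⟩
    push_cast
    rw [abs_le]
    constructor <;> linarith [hr.1, hr.2]

noncomputable def B (k : ℕ) (j : Fin 2) (l : Fin 11) : ℝ := v j / (F k * p k j) * g (u k) l

theorem v_bd (j : Fin 2) : |v j| ≤ 2 := by
  unfold v
  split_ifs
  · norm_num
  · rw [abs_of_nonneg (Real.sqrt_nonneg _), Real.sqrt_le_iff]
    norm_num

theorem g_bd (h : S_cov) (k : ℕ) (l : Fin 11) : |g (u k) l| ≤ 2 ^ 20 := by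
  have h1 := (h.2.1 k).1
  have h2 := (h.2.1 k).2
  unfold g
  rw [abs_mul, abs_pow, abs_neg, abs_of_nonneg (by linarith : 0 ≤ u k), Nat.abs_cast]
  have h3 : (Nat.choose 10 l.1 : ℝ) ≤ 2 ^ 10 := by
    have : Nat.choose 10 l.1 ≤ 2 ^ 10 := Nat.choose_le_two_pow 10 l.1
    exact_mod_cast this
  have h4 : u k ^ (10 - l.1) ≤ 2 ^ 10 :=
    (pow_le_pow_left₀ (by linarith) h2 _).trans
      (pow_le_pow_right₀ (by norm_num) (by omega))
  calc (Nat.choose 10 l.1 : ℝ) * u k ^ (10 - l.1) ≤ 2 ^ 10 * 2 ^ 10 :=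
        mul_le_mul h3 h4 (by positivity) (by positivity)
    _ = 2 ^ 20 := by norm_num

theorem B_bd (h : S_cov) (k : ℕ) (j : Fin 2) (l : Fin 11) : |B k j l| ≤ 1 / (D k : ℝ) ^ 2 := by
  have hD := D_big k
  have hD0 : (0 : ℝ) < D k := by linarith
  have hp := p_low k j
  have hp0 : (0 : ℝ) < p k j := by linarith
  have hQ0 : (0 : ℝ) < 2 ^ (12 * lev k) := by positivity
  have hQ := D_lev k
  have hF0 : 0 < F k := by
    unfold F
    positivity
  have hvg : |v j * g (u k) l| ≤ 2 ^ 21 := by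
    rw [abs_mul]
    calc |v j| * |g (u k) l| ≤ 2 * 2 ^ 20 :=
          mul_le_mul (v_bd j) (g_bd h k l) (abs_nonneg _) (by norm_num)
      _ = 2 ^ 21 := by norm_num
  have e : B k j l = (v j * g (u k) l) / (F k * p k j) := by
    unfold B
    ring
  rw [e, abs_div, abs_of_pos (mul_pos hF0 hp0), div_le_div_iff₀ (mul_pos hF0 hp0) (by positivity),
    one_mul]
  have e2 : F k * p k j = (D k : ℝ) ^ 12 * p k j / 2 ^ (12 * lev k) := by
    unfold F
    ring
  rw [e2, le_div_iff₀ hQ0]
  have h3 : (D k : ℝ) ^ 3 ≤ (D k : ℝ) ^ 13 := pow_le_pow_right₀ (by linarith) (by norm_num)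
  have h4 : (D k : ℝ) ^ 12 * D k ≤ (D k : ℝ) ^ 12 * (3 * p k j) :=
    mul_le_mul_of_nonneg_left hp (by positivity)
  have h5 : (2 : ℝ) ^ 23 * 2 ^ (12 * lev k) * (D k : ℝ) ^ 2 ≤ D k * (D k : ℝ) ^ 2 :=
    mul_le_mul_of_nonneg_right hQ (by positivity)
  have h6 : |v j * g (u k) l| * ((D k : ℝ) ^ 2 * 2 ^ (12 * lev k)) ≤
      2 ^ 21 * ((D k : ℝ) ^ 2 * 2 ^ (12 * lev k)) :=
    mul_le_mul_of_nonneg_right hvg (by positivity)
  have h7 : 0 < (D k : ℝ) ^ 2 * 2 ^ (12 * lev k) := by positivity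
  have e3 : (D k : ℝ) ^ 12 * D k = (D k : ℝ) ^ 13 := by ring
  have e4 : (D k : ℝ) * (D k : ℝ) ^ 2 = (D k : ℝ) ^ 3 := by ring
  rw [e3] at h4
  rw [e4] at h5
  nlinarith [h3, h4, h5, h6, h7]

theorem r_step (k : ℕ) : 1 / (D k : ℝ) ^ 2 + 9 / 2 / D (k + 1) ≤
    2 / (D k : ℝ) ^ 2 - 2 / (D (k + 1) : ℝ) ^ 2 := by
  have hD := D_big k
  have hD0 : (0 : ℝ) < D k := by linarith
  have hD1 := D_big (k + 1)
  have hD10 : (0 : ℝ) < D (k + 1) := by linarith
  have h1 : 2 / (D (k + 1) : ℝ) ^ 2 ≤ 2 / D (k + 1) := by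
    apply div_le_div_of_nonneg_left (by norm_num) hD10
    nlinarith
  have h2 : 13 / 2 / (D (k + 1) : ℝ) ≤ 1 / (D k : ℝ) ^ 2 := by
    rw [div_le_div_iff₀ hD10 (by positivity), one_mul, D_succ]
    have h3 : (D k : ℝ) ^ 3 ≤ (D k : ℝ) ^ 36 := pow_le_pow_right₀ (by linarith) (by norm_num)
    have h4 : 13 / 2 * (D k : ℝ) ^ 2 ≤ (D k : ℝ) ^ 3 := by
      have : (D k : ℝ) ^ 3 = D k * (D k : ℝ) ^ 2 := by ring
      rw [this]
      exact mul_le_mul_of_nonneg_right (by linarith) (by positivity)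
    linarith
  have e1 : 13 / 2 / (D (k + 1) : ℝ) = 9 / 2 / D (k + 1) + 2 / D (k + 1) := by ring
  have e2 : 2 / (D k : ℝ) ^ 2 = 1 / (D k : ℝ) ^ 2 + 1 / (D k : ℝ) ^ 2 := by ring
  linarith

/-- the recursion -/
noncomputable def ss (R : ℕ → Fin 2 → ℝ → ℤ) : ℕ → Fin 2 → Fin 11 → ℤ
  | 0 => fun _ _ => 1
  | k + 1 => fun j l => R (k + 1) j (p (k + 1) j * ((ss R k j l : ℝ) / p k j + B k j l))

theorem ex (h : S_cov) : S_ex := by
  classical
  choose R hR1 hR2 using rd
  let s : ℕ → Fin 2 → Fin 11 → ℤ := ss R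
  have s0 : ∀ j l, s 0 j l = 1 := fun _ _ => rfl
  have s1 : ∀ k j l, s (k + 1) j l =
      R (k + 1) j (p (k + 1) j * ((s k j l : ℝ) / p k j + B k j l)) := fun _ _ _ => rfl
  let x : ℕ → Fin 2 → Fin 11 → ℝ := fun k j l => (s k j l : ℝ) / p k j
  have hD : ∀ k, (1000000 : ℝ) ≤ D k := D_big
  have hD0 : ∀ k, (0 : ℝ) < D k := fun k => by linarith [hD k]
  have hp0 : ∀ k j, (0 : ℝ) < p k j := fun k j => by linarith [p_low k j, hD k]
  have step : ∀ k j l, |x (k + 1) j l - x k j l - B k j l| ≤ 9 / 2 / D (k + 1) := by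
    intro k j l
    have h1 := hR1 (k + 1) j (p (k + 1) j * ((s k j l : ℝ) / p k j + B k j l))
    rw [← s1] at h1
    have hp := hp0 (k + 1) j
    have e : x (k + 1) j l - x k j l - B k j l =
        ((s (k + 1) j l : ℝ) - p (k + 1) j * ((s k j l : ℝ) / p k j + B k j l)) / p (k + 1) j := by
      simp only [x]
      field_simp
      ring
    rw [e, abs_div, abs_of_pos hp, div_le_div_iff₀ hp (hD0 (k + 1))]
    have h2 := p_low (k + 1) j
    nlinarith [abs_nonneg ((s (k + 1) j l : ℝ) -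
      p (k + 1) j * ((s k j l : ℝ) / p k j + B k j l)), hD0 (k + 1)]
  let r : ℕ → ℝ := fun k => 2 / (D k : ℝ) ^ 2
  have r0 : ∀ k, 0 ≤ r k := fun k => by positivity
  have step2 : ∀ k j l, |x (k + 1) j l - x k j l| ≤ r k - r (k + 1) := by
    intro k j l
    have h1 := step k j l
    have h2 := B_bd h k j l
    have h3 := r_step k
    have h4 : |x (k + 1) j l - x k j l| ≤ |x (k + 1) j l - x k j l - B k j l| + |B k j l| := by
      have := abs_add_le (x (k + 1) j l - x k j l - B k j l) (B k j l)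
      simpa using this
    simp only [r]
    linarith
  have step3 : ∀ k m j l, |x (k + m) j l - x k j l| ≤ r k - r (k + m) := by
    intro k m j l
    induction m with
    | zero => simp
    | succ m ih =>
      have h1 := step2 (k + m) j l
      have h2 : |x (k + m + 1) j l - x k j l| ≤
          |x (k + m + 1) j l - x (k + m) j l| + |x (k + m) j l - x k j l| := by
        have := abs_add_le (x (k + m + 1) j l - x (k + m) j l) (x (k + m) j l - x k j l)
        simpa using this
      have e : k + (m + 1) = k + m + 1 := by ring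
      rw [e]
      linarith
  have step4 : ∀ k m j l, k ≤ m → |x m j l - x k j l| ≤ r k := by
    intro k m j l hkm
    obtain ⟨d, rfl⟩ := Nat.exists_eq_add_of_le hkm
    have := step3 k d j l
    have := r0 (k + d)
    linarith
  have rlim : Tendsto (fun k => 2 * r k) atTop (nhds 0) := by
    have hz : Tendsto (fun k : ℕ => 4 * (1 / ((k : ℝ) + 1))) atTop (nhds 0) := by
      simpa using (tendsto_one_div_add_atTop_nhds_zero_nat (𝕜 := ℝ)).const_mul 4
    refine squeeze_zero (fun k => by have := r0 k; linarith) (fun k => ?_) hz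
    have h1 := D_id k
    have h2 := hD k
    have hk : (0 : ℝ) < (k : ℝ) + 1 := by positivity
    simp only [r]
    have h3 : 1 / (D k : ℝ) ^ 2 ≤ 1 / ((k : ℝ) + 1) := by
      apply one_div_le_one_div_of_le hk
      nlinarith
    have e : 2 * (2 / (D k : ℝ) ^ 2) = 4 * (1 / (D k : ℝ) ^ 2) := by ring
    rw [e]
    linarith
  have hcau : ∀ j l, CauchySeq fun k => x k j l := by
    intro j l
    refine cauchySeq_of_le_tendsto_0 (fun k => 2 * r k) (fun n m N hn hm => ?_) rlim
    rw [Real.dist_eq]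
    have h1 := step4 N n j l hn
    have h2 := step4 N m j l hm
    have h3 : |x n j l - x m j l| ≤ |x n j l - x N j l| + |x m j l - x N j l| := by
      have := abs_sub (x n j l - x N j l) (x m j l - x N j l)
      simpa using this
    linarith
  have hlim : ∀ j l, ∃ a, Tendsto (fun k => x k j l) atTop (nhds a) :=
    fun j l => cauchySeq_tendsto_of_complete (hcau j l)
  choose A hA using hlim
  have hAx : ∀ k j l, |A j l - x k j l| ≤ r k := by
    intro k j l
    have h1 : Tendsto (fun m => |x m j l - x k j l|) atTop (nhds |A j l - x k j l|) :=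
      ((hA j l).sub_const _).abs
    exact le_of_tendsto h1 (eventually_atTop.2 ⟨k, fun m hm => step4 k m j l hm⟩)
  have hr1 : ∀ k, r k ≤ 1 / 1000 := by
    intro k
    simp only [r]
    rw [div_le_div_iff₀ (by have := hD0 k; positivity) (by norm_num)]
    nlinarith [hD k]
  have hbd : ∀ j l, |A j l| ≤ 1 := by
    intro j l
    have h1 := hAx 0 j l
    have h2 := hr1 0
    have h3 : |x 0 j l| ≤ 1 / 1000 := by
      have key : ∀ q d : ℝ, 1000000 ≤ d → d ≤ 3 * q → |((1 : ℤ) : ℝ) / q| ≤ 1 / 1000 := by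
        intro q d h1 h2
        have hq : 0 < q := by linarith
        rw [Int.cast_one, abs_of_pos (by positivity), div_le_div_iff₀ hq (by norm_num)]
        linarith
      have h0 : x 0 j l = ((1 : ℤ) : ℝ) / p 0 j := by
        simp only [x, s0]
      rw [h0]
      exact key _ _ (hD 0) (p_low 0 j)
    have h4 : |A j l| ≤ |A j l - x 0 j l| + |x 0 j l| := by
      have := abs_add_le (A j l - x 0 j l) (x 0 j l)
      simpa using this
    linarith
  refine ⟨A, s, hbd, ?_, ?_, ?_⟩
  · intro k j l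
    have h1 := hAx k j l
    have h2 := hr1 k
    have h3 := hbd j l
    have h4 : |x k j l| ≤ |A j l| + |A j l - x k j l| := by
      have := abs_sub (A j l) (A j l - x k j l)
      simpa using this
    have h5 : |x k j l| ≤ 2 := by linarith
    simp only [x] at h5
    rw [abs_div, abs_of_pos (hp0 k j), div_le_iff₀ (hp0 k j)] at h5
    exact h5
  · intro k j
    cases k with
    | zero =>
      rw [s0]
      exact isCoprime_one_left
    | succ k =>
      rw [s1]
      exact hR2 _ _ _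
  · intro k j l
    have h1 := hAx (k + 1) j l
    have h2 := step k j l
    have h3 : r (k + 1) ≤ 2 / D (k + 1) := by
      simp only [r]
      apply div_le_div_of_nonneg_left (by norm_num) (hD0 (k + 1))
      nlinarith [hD (k + 1)]
    have h4 : |A j l - x k j l - B k j l| ≤
        |A j l - x (k + 1) j l| + |x (k + 1) j l - x k j l - B k j l| := by
      have := abs_add_le (A j l - x (k + 1) j l) (x (k + 1) j l - x k j l - B k j l)
      have e : A j l - x (k + 1) j l + (x (k + 1) j l - x k j l - B k j l) =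
        A j l - x k j l - B k j l := by ring
      rwa [e] at this
    have h5 : 2 / (D (k + 1) : ℝ) + 9 / 2 / D (k + 1) ≤ 20 / (D k : ℝ) ^ 36 := by
      rw [← D_succ]
      have e : 2 / (D (k + 1) : ℝ) + 9 / 2 / D (k + 1) = 13 / 2 / D (k + 1) := by ring
      rw [e]
      exact div_le_div_of_nonneg_right (by norm_num) (hD0 (k + 1)).le
    have h6 : |A j l - x k j l - B k j l| ≤ 20 / (D k : ℝ) ^ 36 := by linarith
    exact h6

end Pool.Agent.W11.KT
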